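import Mathlib
import Pool.Agent.Helper82_NIB.Stmts

/-!
# NIB: SCN1, number of coordinates of a bad event
-/

set_option autoImplicit false
set_option linter.unusedSectionVars false

open Finset Matrix

namespace Pool.Agent.NIB.H92

open Pool.Agent.NIB

section

variable {V C : Type} [Fintype V] [DecidableEq V] [Fintype C] [DecidableEq C]

open Classical in
/-- Arcs of colour `c` at the node `w`. -/
noncomputable def arcsAt (b : Bm V C) (c : C) (w : V × Bool) : Finset (V × V) :=
  univ.filter fun a => b.x c a.1 a.2 ≠ 0 ∧ atn w a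

open Classical in
lemma mem_arcsAt {b : Bm V C} {c : C} {w : V × Bool} {a : V × V} :
    a ∈ arcsAt b c w ↔ b.x c a.1 a.2 ≠ 0 ∧ atn w a := by
  unfold arcsAt
  rw [Finset.mem_filter]
  exact ⟨fun h => h.2, fun h => ⟨Finset.mem_univ _, h⟩⟩

lemma atn_true {u : V} {a : V × V} : atn (u, true) a ↔ a.1 = u := by
  unfold atn
  constructor
  · rintro (h | h)
    · exact (congrArg Prod.fst h).symm
    · exact absurd (congrArg Prod.snd h) (by simp)
  · rintro rfl
    exact Or.inl rfl

lemma atn_false {v : V} {a : V × V} : atn (v, false) a ↔ a.2 = v := by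
  unfold atn
  constructor
  · rintro (h | h)
    · exact absurd (congrArg Prod.snd h) (by simp)
    · exact (congrArg Prod.fst h).symm
  · rintro rfl
    exact Or.inr rfl

/-- At most `kap` arcs of colour `c` at a node. -/
lemma card_arcsAt {b : Bm V C} {de Lam h : ℝ} {kap : ℕ} (hb : b.Ok de Lam h kap) (c : C)
    (w : V × Bool) : (arcsAt b c w).card ≤ kap := by
  rcases w with ⟨w, _ | _⟩
  · have h1 : ((arcsAt b c (w, false) : Finset (V × V)) : Set (V × V)) ⊆
        (fun u => (u, w)) '' {u | ∃ c, b.x c u w ≠ 0} := by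
      intro a ha
      rw [Finset.mem_coe, mem_arcsAt, atn_false] at ha
      refine ⟨a.1, ⟨c, ?_⟩, ?_⟩
      · rw [← ha.2]
        exact ha.1
      · rw [← ha.2]
    rw [← Set.ncard_coe_finset]
    refine (Set.ncard_le_ncard h1 (Set.toFinite _)).trans ?_
    exact (Set.ncard_image_le (Set.toFinite _)).trans (hb.kin w)
  · have h1 : ((arcsAt b c (w, true) : Finset (V × V)) : Set (V × V)) ⊆
        (fun v => (w, v)) '' {v | ∃ c, b.x c w v ≠ 0} := by
      intro a ha
      rw [Finset.mem_coe, mem_arcsAt, atn_true] at ha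
      refine ⟨a.2, ⟨c, ?_⟩, ?_⟩
      · rw [← ha.2]
        exact ha.1
      · rw [← ha.2]
    rw [← Set.ncard_coe_finset]
    refine (Set.ncard_le_ncard h1 (Set.toFinite _)).trans ?_
    exact (Set.ncard_image_le (Set.toFinite _)).trans (hb.kout w)

lemma card_blk {b : Bm V C} {de Lam h : ℝ} {kap : ℕ} (hb : b.Ok de Lam h kap) (c : C)
    (a : V × V) : (b.blk c a).card ≤ 2 * kap := by
  have h1 : b.blk c a ⊆ arcsAt b c (a.1, true) ∪ arcsAt b c (a.2, false) := by
    intro a' ha'
    unfold Bm.blk at ha'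
    rw [Finset.mem_filter] at ha'
    obtain ⟨-, -, hadj, hx⟩ := ha'
    rw [Finset.mem_union, mem_arcsAt, mem_arcsAt, atn_true, atn_false]
    rcases hadj with h | h
    · exact Or.inl ⟨hx, h⟩
    · exact Or.inr ⟨hx, h⟩
  have h2 := card_arcsAt hb c (a.1, true)
  have h3 := card_arcsAt hb c (a.2, false)
  have h4 := (Finset.card_le_card h1).trans (Finset.card_union_le _ _)
  omega

lemma card_dep {b : Bm V C} {de Lam h : ℝ} {kap : ℕ} (hb : b.Ok de Lam h kap) (c : C)
    (a : V × V) : (b.dep c a).card ≤ 2 * kap + 3 := by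
  unfold Bm.dep
  refine (Finset.card_union_le _ _).trans ?_
  have h1 : ((b.blk c a).image (Sum.inl : V × V → Crd V C)).card ≤ 2 * kap :=
    Finset.card_image_le.trans (card_blk hb c a)
  have h2 : ({.inl a, .inr (c, b.st c a.1), .inr (c, a.2)} : Finset (Crd V C)).card ≤ 3 :=
    Finset.card_le_three
  omega

variable {J : Type}

lemma card_PE {b : Bm V C} {de Lam h : ℝ} {kap K1 : ℕ} (hb : b.Ok de Lam h kap)
    {kp : C → J → V → V → ℝ}
    (hK : ∀ c j, ({a | b.x c a.1 a.2 ≠ 0 ∧ kp c j a.1 a.2 ≠ 0} : Set (V × V)).ncard ≤ K1)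
    (e : EI V C J) :
    (PE b kp e).card ≤ (Fintype.card C + 2) * (kap + 3) ^ 2 * (K1 + 2) := by
  classical
  have hone : 1 ≤ (kap + 3) ^ 2 := Nat.one_le_pow _ _ (by omega)
  rcases e with ⟨c, j⟩ | ⟨c, w⟩ | ⟨c, w⟩ | w
  · have h1 : ((PE b kp (.inl (c, j)) : Finset (C × (V × V))) : Set (C × (V × V))) ⊆
        (fun a => (c, a)) '' {a | b.x c a.1 a.2 ≠ 0 ∧ kp c j a.1 a.2 ≠ 0} := by
      rintro ⟨c', a⟩ hp
      rw [Finset.mem_coe] at hp
      unfold PE at hp
      rw [Finset.mem_filter] at hp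
      obtain ⟨-, hc, hx, hk⟩ := hp
      refine ⟨a, ⟨hx, hk⟩, ?_⟩
      rw [show c' = c from hc]
    rw [← Set.ncard_coe_finset]
    refine ((Set.ncard_le_ncard h1 (Set.toFinite _)).trans
      ((Set.ncard_image_le (Set.toFinite _)).trans (hK c j))).trans ?_
    nlinarith [Nat.zero_le (Fintype.card C), Nat.zero_le K1,
      Nat.mul_le_mul (Nat.mul_le_mul (show 1 ≤ Fintype.card C + 2 by omega) hone)
        (show K1 ≤ K1 + 2 by omega)]
  · have h1 : PE b kp (.inr (.inl (c, w))) ⊆
        (arcsAt b c w ∪ (univ.filter fun w' => mat (b.x c) w w' ≠ 0).biUnion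
          fun w' => arcsAt b c w').image fun a => (c, a) := by
      rintro ⟨c', a⟩ hp
      unfold PE at hp
      rw [Finset.mem_filter] at hp
      obtain ⟨-, hc, hx, hw⟩ := hp
      rw [show c' = c from hc]
      refine Finset.mem_image_of_mem _ ?_
      rw [Finset.mem_union]
      rcases hw with hw | ⟨w', hw', hat⟩
      · exact Or.inl (mem_arcsAt.2 ⟨hx, hw⟩)
      · refine Or.inr (Finset.mem_biUnion.2 ⟨w', ?_, mem_arcsAt.2 ⟨hx, hat⟩⟩)
        exact Finset.mem_filter.2 ⟨Finset.mem_univ _, hw'⟩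
    have h2 : (univ.filter fun w' => mat (b.x c) w w' ≠ 0).card ≤ kap := by
      have h3a : ∀ u, ({v | b.x c u v ≠ 0} : Set V).ncard ≤ kap := fun u =>
        (Set.ncard_le_ncard (t := {v | ∃ c, b.x c u v ≠ 0}) (fun v hv => ⟨c, hv⟩)
          (Set.toFinite _)).trans (hb.kout u)
      have h3b : ∀ v, ({u | b.x c u v ≠ 0} : Set V).ncard ≤ kap := fun v =>
        (Set.ncard_le_ncard (t := {u | ∃ c, b.x c u v ≠ 0}) (fun u hu => ⟨c, hu⟩)
          (Set.toFinite _)).trans (hb.kin v)
      have h3 := mat_row_ncard h3a h3b w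
      rw [← Set.ncard_coe_finset]
      convert h3 using 2
      ext w'
      simp
    have h4 : ((univ.filter fun w' => mat (b.x c) w w' ≠ 0).biUnion
          fun w' => arcsAt b c w').card ≤ kap * kap :=
      (Finset.card_biUnion_le_card_mul _ _ kap fun w' _ => card_arcsAt hb c w').trans
        (Nat.mul_le_mul_right _ h2)
    have h5 := card_arcsAt hb c w
    have h6 := ((Finset.card_le_card h1).trans Finset.card_image_le).trans
      (Finset.card_union_le _ _)
    have h7 : kap + kap * kap ≤ (kap + 3) ^ 2 := by nlinarith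
    have h8 : 1 * (kap + 3) ^ 2 * 1 ≤ (Fintype.card C + 2) * (kap + 3) ^ 2 * (K1 + 2) :=
      Nat.mul_le_mul (Nat.mul_le_mul_right _ (by omega)) (by omega)
    omega
  · have h1 : PE b kp (.inr (.inr (.inl (c, w)))) ⊆ (arcsAt b c w).image fun a => (c, a) := by
      rintro ⟨c', a⟩ hp
      unfold PE at hp
      rw [Finset.mem_filter] at hp
      obtain ⟨-, hc, hx, hw⟩ := hp
      rw [show c' = c from hc]
      exact Finset.mem_image_of_mem _ (mem_arcsAt.2 ⟨hx, hw⟩)
    have h5 := card_arcsAt hb c w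
    have h6 := (Finset.card_le_card h1).trans Finset.card_image_le
    have h7 : kap ≤ (kap + 3) ^ 2 := by nlinarith
    have h8 : 1 * (kap + 3) ^ 2 * 1 ≤ (Fintype.card C + 2) * (kap + 3) ^ 2 * (K1 + 2) :=
      Nat.mul_le_mul (Nat.mul_le_mul_right _ (by omega)) (by omega)
    omega
  · have h1 : PE b kp (.inr (.inr (.inr w))) ⊆
        (univ : Finset C).biUnion fun c => (arcsAt b c w).image fun a => (c, a) := by
      rintro ⟨c', a⟩ hp
      unfold PE at hp
      rw [Finset.mem_filter] at hp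
      obtain ⟨-, hx, hw⟩ := hp
      exact Finset.mem_biUnion.2 ⟨c', Finset.mem_univ _,
        Finset.mem_image_of_mem _ (mem_arcsAt.2 ⟨hx, hw⟩)⟩
    have h6 := (Finset.card_le_card h1).trans
      (Finset.card_biUnion_le_card_mul _ _ kap fun c _ =>
        Finset.card_image_le.trans (card_arcsAt hb c w))
    rw [Finset.card_univ] at h6
    have h7 : kap ≤ (kap + 3) ^ 2 := by nlinarith
    have h8 : Fintype.card C * (kap + 3) ^ 2 * 1 ≤
        (Fintype.card C + 2) * (kap + 3) ^ 2 * (K1 + 2) :=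
      Nat.mul_le_mul (Nat.mul_le_mul_right _ (by omega)) (by omega)
    have h9 := Nat.mul_le_mul_left (Fintype.card C) h7
    omega

end

theorem scn1 : Scn1Stmt := by
  intro V C J _ _ _ _ b de Lam h kap K1 kp hb hK e
  unfold WE
  refine (Finset.card_biUnion_le_card_mul _ _ (2 * kap + 3) fun p _ => card_dep hb p.1 p.2).trans ?_
  have h1 := card_PE hb hK e
  have h2 : 2 * kap + 3 ≤ (kap + 3) ^ 4 := by
    have : (kap + 3) ^ 4 = (kap + 3) ^ 2 * (kap + 3) ^ 2 := by ring
    nlinarith [Nat.zero_le kap, sq_nonneg (kap + 3), Nat.one_le_pow 2 (kap + 3) (by omega)]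
  unfold KK3
  calc (PE b kp e).card * (2 * kap + 3)
      ≤ ((Fintype.card C + 2) * (kap + 3) ^ 2 * (K1 + 2)) * (kap + 3) ^ 4 :=
        Nat.mul_le_mul h1 h2
    _ = (Fintype.card C + 2) * (kap + 3) ^ 6 * (K1 + 2) := by ring

end Pool.Agent.NIB.H92
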