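import Mathlib
import Pool.Agent.Helper82_NIB.Stmts

/-!
# NIB: SDET, deterministic properties of the selected arcs
-/

set_option autoImplicit false
set_option linter.unusedSectionVars false

open Finset Matrix

namespace Pool.Agent.NIB.H92

open Pool.Agent.NIB

open Classical in
lemma sum_ite_le_one {V : Type} [Fintype V] (P : V → Prop)
    (h : ∀ a b, P a → P b → a = b) : (∑ v, if P v then (1 : ℝ) else 0) ≤ 1 := by
  rw [Finset.sum_boole]
  have h1 : (univ.filter fun v => P v).card ≤ 1 := by
    rw [Finset.card_le_one]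
    intro a ha b hb
    exact h a b (Finset.mem_filter.1 ha).2 (Finset.mem_filter.1 hb).2
  exact_mod_cast h1

section

variable {V C : Type} [Fintype V] [DecidableEq V] [Fintype C] [DecidableEq C]

/-- Two selected arcs (same colour) with a common tail or a common head coincide. -/
lemma sel_unique {b : Bm V C} {de Lam h : ℝ} {kap : ℕ} (hb : b.Ok de Lam h kap)
    {ω : Crd V C → Val C} {c : C} {a a' : V × V} (ha : b.Sel c ω a) (ha' : b.Sel c ω a')
    (hadj : a'.1 = a.1 ∨ a'.2 = a.2) : a = a' := by
  by_contra hne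
  have hord : b.ord a ≠ b.ord a' := fun e => hne (hb.ordInj e)
  rcases lt_or_gt_of_ne hord with hlt | hlt
  · have hmem : a ∈ b.blk c a' := by
      unfold Bm.blk
      rw [Finset.mem_filter]
      exact ⟨Finset.mem_univ _, hlt, hadj.imp Eq.symm Eq.symm, ha.2.1⟩
    exact ha'.2.2.1 a hmem ⟨true, ha.1⟩
  · have hmem : a' ∈ b.blk c a := by
      unfold Bm.blk
      rw [Finset.mem_filter]
      exact ⟨Finset.mem_univ _, hlt, hadj, ha'.2.1⟩
    exact ha.2.2.1 a' hmem ⟨true, ha'.1⟩

lemma sg_eq_one {b : Bm V C} {c : C} {ω : Crd V C → Val C} {u v : V}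
    (h : b.sg c ω u v = 1) : b.Sel c ω (u, v) := by
  by_contra hn
  unfold Bm.sg at h
  rw [if_neg hn] at h
  exact zero_ne_one h

end

theorem sdet : SdetStmt := by
  intro V C _ _ _ _ b de Lam h kap hb ω
  refine ⟨?_, ?_, ?_, ?_, ?_, ?_, ?_⟩
  · intro c u v
    unfold Bm.sg
    split_ifs
    · exact Or.inr rfl
    · exact Or.inl rfl
  · intro c u v
    unfold Bm.ub
    split_ifs
    · exact Or.inr rfl
    · exact Or.inl rfl
  · intro c u v h1
    exact (sg_eq_one h1).2.1
  · intro c w
    rcases w with ⟨w, _ | _⟩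
    · rw [rs_inn]
      unfold Bm.sg
      refine sum_ite_le_one (fun u => b.Sel c ω (u, w)) fun u u' hu hu' => ?_
      exact congrArg Prod.fst (sel_unique hb hu hu' (Or.inr rfl))
    · rw [rs_out]
      unfold Bm.sg
      refine sum_ite_le_one (fun v => b.Sel c ω (w, v)) fun v v' hv hv' => ?_
      exact congrArg Prod.snd (sel_unique hb hv hv' (Or.inl rfl))
  · intro c u v h1
    exact (sg_eq_one h1).2.2.2
  · intro c c' u v hcc h1
    have h2 := (sg_eq_one h1).1
    unfold Bm.sg
    rw [if_neg]
    intro h3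
    have h4 := h3.1
    rw [h2] at h4
    simp only [Option.some.injEq, Prod.mk.injEq, and_true] at h4
    exact hcc h4
  · intro c c' u v hcc h1
    have h2 := (sg_eq_one h1).1
    unfold Bm.ub
    rw [if_pos]
    exact ⟨c, hcc, true, h2⟩

end Pool.Agent.NIB.H92
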